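import Mathlib

set_option autoImplicit false

namespace Pool.Agent.H.MP_7909d8_al

open Equiv
open scoped commutatorElement

variable {G : Type} [Group G]

abbrev Om (G : Type) := ℚ × G × ZMod 3

def tr (f : ℚ → G → ZMod 3) : Perm (Om G) where
  toFun w := (w.1, w.2.1, w.2.2 + f w.1 w.2.1)
  invFun w := (w.1, w.2.1, w.2.2 - f w.1 w.2.1)
  left_inv w := by simp
  right_inv w := by simp

def mv (G : Type) (u v : ℚ) (hu : u ≠ 0) : Perm (Om G) where
  toFun w := (u * w.1 + v, w.2)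
  invFun w := ((w.1 - v) / u, w.2)
  left_inv w := by
    ext <;> simp
    field_simp
  right_inv w := by
    ext <;> simp
    field_simp
    ring

open Classical in
noncomputable def sg (G : Type) : Perm (Om G) where
  toFun w := (w.1, w.2.1, if (∃ n : ℕ, w.1 = n) then -w.2.2 else w.2.2)
  invFun w := (w.1, w.2.1, if (∃ n : ℕ, w.1 = n) then -w.2.2 else w.2.2)
  left_inv w := by
    by_cases h : ∃ n : ℕ, w.1 = n <;> simp [h]
  right_inv w := by
    by_cases h : ∃ n : ℕ, w.1 = n <;> simp [h]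

def lam (G : Type) [Group G] : G →* Perm (Om G) where
  toFun g :=
    { toFun := fun w => (w.1, g * w.2.1, w.2.2)
      invFun := fun w => (w.1, g⁻¹ * w.2.1, w.2.2)
      left_inv := fun w => by simp
      right_inv := fun w => by simp }
  map_one' := by ext w <;> simp
  map_mul' a b := by ext w <;> simp [mul_assoc]

omit [Group G] in
@[simp] lemma tr_apply (f : ℚ → G → ZMod 3) (w : Om G) :
    tr f w = (w.1, w.2.1, w.2.2 + f w.1 w.2.1) := rfl
omit [Group G] in
@[simp] lemma mv_apply (u v : ℚ) (hu : u ≠ 0) (w : Om G) :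
    mv G u v hu w = (u * w.1 + v, w.2) := rfl
omit [Group G] in
open Classical in
@[simp] lemma sg_apply (w : Om G) :
    sg G w = (w.1, w.2.1, if (∃ n : ℕ, w.1 = n) then -w.2.2 else w.2.2) := rfl
@[simp] lemma lam_apply (g : G) (w : Om G) : lam G g w = (w.1, g * w.2.1, w.2.2) := rfl

def K0 (G : Type) : Subgroup (Perm (Om G)) where
  carrier := {s | ∃ u v : ℚ, u ≠ 0 ∧ ∀ w, (s w).1 = u * w.1 + v ∧ (s w).2.1 = w.2.1}
  one_mem' := ⟨1, 0, one_ne_zero, fun w => by simp⟩
  mul_mem' := by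
    rintro a b ⟨u, v, hu, ha⟩ ⟨u', v', hu', hb⟩
    refine ⟨u * u', u * v' + v, mul_ne_zero hu hu', fun w => ?_⟩
    rw [Perm.mul_apply, (ha _).1, (ha _).2, (hb _).1, (hb _).2]
    exact ⟨by ring, rfl⟩
  inv_mem' := by
    rintro a ⟨u, v, hu, ha⟩
    refine ⟨u⁻¹, -v / u, inv_ne_zero hu, fun w => ?_⟩
    have := ha (a⁻¹ w)
    rw [show a (a⁻¹ w) = w by simp] at this
    refine ⟨?_, this.2.symm⟩
    rw [this.1]
    field_simp
    ring

def K1 (G : Type) : Subgroup (Perm (Om G)) where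
  carrier := {s | ∃ v : ℚ, ∀ w, (s w).1 = w.1 + v ∧ (s w).2.1 = w.2.1}
  one_mem' := ⟨0, fun w => by simp⟩
  mul_mem' := by
    rintro a b ⟨v, ha⟩ ⟨v', hb⟩
    refine ⟨v' + v, fun w => ?_⟩
    rw [Perm.mul_apply, (ha _).1, (ha _).2, (hb _).1, (hb _).2]
    exact ⟨by ring, rfl⟩
  inv_mem' := by
    rintro a ⟨v, ha⟩
    refine ⟨-v, fun w => ?_⟩
    have := ha (a⁻¹ w)
    rw [show a (a⁻¹ w) = w by simp] at this
    refine ⟨?_, this.2.symm⟩
    rw [this.1]
    ring

def K2 (G : Type) : Subgroup (Perm (Om G)) where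
  carrier := {s | ∀ w, (s w).1 = w.1 ∧ (s w).2.1 = w.2.1}
  one_mem' := fun w => by simp
  mul_mem' := by
    intro a b ha hb w
    rw [Perm.mul_apply, (ha _).1, (ha _).2, (hb _).1, (hb _).2]
    exact ⟨rfl, rfl⟩
  inv_mem' := by
    intro a ha w
    have := ha (a⁻¹ w)
    rw [show a (a⁻¹ w) = w by simp] at this
    exact ⟨this.1.symm, this.2.symm⟩

def K3 (G : Type) : Subgroup (Perm (Om G)) where
  carrier := {s | ∃ f, s = tr f}
  one_mem' := ⟨0, by ext w <;> simp⟩
  mul_mem' := by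
    rintro a b ⟨f, rfl⟩ ⟨f', rfl⟩
    exact ⟨f' + f, by ext w <;> simp [add_assoc]⟩
  inv_mem' := by
    rintro a ⟨f, rfl⟩
    refine ⟨-f, ?_⟩
    rw [inv_eq_iff_mul_eq_one]
    ext w <;> simp

omit [Group G] in
lemma comm_apply (a b : Perm (Om G)) (w : Om G) :
    ∃ z, w = b (a z) ∧ ⁅a, b⁆ w = a (b z) := by
  refine ⟨a⁻¹ (b⁻¹ w), by simp, ?_⟩
  have : ⁅a, b⁆ = a * b * a⁻¹ * b⁻¹ := commutatorElement_def a b
  rw [this]
  simp

omit [Group G] in
lemma c01 : ⁅K0 G, K0 G⁆ ≤ K1 G := by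
  rw [Subgroup.commutator_le]
  rintro a ⟨u, v, hu, ha⟩ b ⟨u', v', hu', hb⟩
  refine ⟨u * v' + v - u' * v - v', fun w => ?_⟩
  obtain ⟨z, rfl, e⟩ := comm_apply a b w
  rw [e]
  simp only [(ha _).1, (ha _).2, (hb _).1, (hb _).2]
  exact ⟨by ring, trivial⟩

omit [Group G] in
lemma c12 : ⁅K1 G, K1 G⁆ ≤ K2 G := by
  rw [Subgroup.commutator_le]
  rintro a ⟨v, ha⟩ b ⟨v', hb⟩ w
  obtain ⟨z, rfl, e⟩ := comm_apply a b w
  rw [e]
  simp only [(ha _).1, (ha _).2, (hb _).1, (hb _).2]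
  exact ⟨by ring, trivial⟩

lemma z3 : ∀ a b d : ZMod 3, a ≠ b → a ≠ d → b ≠ d → d = (b - a) * 2 + a := by decide

omit [Group G] in
lemma K2_form (s : Perm (Om G)) (hs : s ∈ K2 G) :
    ∃ e f : ℚ → G → ZMod 3, ∀ w, s w = (w.1, w.2.1, e w.1 w.2.1 * w.2.2 + f w.1 w.2.1) := by
  refine ⟨fun x h => (s (x, h, 1)).2.2 - (s (x, h, 0)).2.2, fun x h => (s (x, h, 0)).2.2, ?_⟩
  rintro ⟨x, h, c⟩
  have inj : ∀ c d : ZMod 3, c ≠ d → (s (x, h, c)).2.2 ≠ (s (x, h, d)).2.2 := by
    intro c d hcd e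
    have : s (x, h, c) = s (x, h, d) :=
      Prod.ext (by rw [(hs _).1, (hs _).1]) (Prod.ext (by rw [(hs _).2, (hs _).2]) e)
    exact hcd (by simpa using s.injective this)
  refine Prod.ext (hs _).1 (Prod.ext (hs _).2 ?_)
  have hc : c = 0 ∨ c = 1 ∨ c = 2 := by revert c; decide
  rcases hc with rfl | rfl | rfl
  · simp
  · simp
  · exact z3 _ _ _ (inj 0 1 (by decide)) (inj 0 2 (by decide)) (inj 1 2 (by decide))

omit [Group G] in
lemma c23 : ⁅K2 G, K2 G⁆ ≤ K3 G := by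
  rw [Subgroup.commutator_le]
  intro a ha b hb
  obtain ⟨e, f, h1⟩ := K2_form a ha
  obtain ⟨e', f', h2⟩ := K2_form b hb
  refine ⟨fun x h => e x h * f' x h + f x h - e' x h * f x h - f' x h, ?_⟩
  refine Equiv.ext fun w => ?_
  obtain ⟨z, rfl, e⟩ := comm_apply a b w
  rw [e]
  simp only [h1, h2, tr_apply]
  refine Prod.ext rfl (Prod.ext rfl ?_)
  ring

omit [Group G] in
lemma c34 : ⁅K3 G, K3 G⁆ ≤ ⊥ := by
  rw [Subgroup.commutator_le]
  rintro a ⟨f, rfl⟩ b ⟨f', rfl⟩
  rw [Subgroup.mem_bot, commutatorElement_eq_one_iff_mul_comm]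
  ext w <;> simp
  ring

omit [Group G] in
lemma der4 (S : Subgroup (Perm (Om G))) (hS : S ≤ K0 G) : derivedSeries S 4 = ⊥ := by
  have step : ∀ (n : ℕ) (A B : Subgroup (Perm (Om G))), (derivedSeries S n).map S.subtype ≤ A →
      ⁅A, A⁆ ≤ B → (derivedSeries S (n + 1)).map S.subtype ≤ B := by
    intro n A B h1 h2
    rw [derivedSeries_succ, Subgroup.map_commutator]
    exact (Subgroup.commutator_mono h1 h1).trans h2
  have h0 : (derivedSeries S 0).map S.subtype ≤ K0 G := (Subgroup.map_subtype_le _).trans hS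
  have h4 := step 3 _ _ (step 2 _ _ (step 1 _ _ (step 0 _ _ h0 c01) c12) c23) c34
  rwa [le_bot_iff, Subgroup.map_eq_bot_iff_of_injective _ S.subtype_injective] at h4

def rho (e : ℕ → G) (j n : ℕ) : G :=
  if n = 0 then 1 else if n % 2 = 0 then rho e (j + 1) (n / 2) else e j * rho e 0 (n / 2)
termination_by n
decreasing_by all_goals omega

lemma rho_eq (e : ℕ → G) (m k : ℕ) : ∀ j, rho e j (2 ^ k * (2 * m + 1)) = e (j + k) * rho e 0 m := by
  induction k with
  | zero =>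
    intro j
    rw [rho, if_neg (by omega), if_neg (by omega)]
    congr 2
    omega
  | succ k ih =>
    intro j
    have e1 : 2 ^ (k + 1) * (2 * m + 1) = 2 * (2 ^ k * (2 * m + 1)) := by ring
    have p : 0 < 2 ^ k * (2 * m + 1) := by positivity
    rw [rho, if_neg (by omega), if_pos (by omega), e1, Nat.mul_div_cancel_left _ (by norm_num), ih]
    congr 2
    omega

open Classical in
noncomputable def f0 (e : ℕ → G) (x : ℚ) (h : G) : ZMod 3 :=
  if (∃ n : ℕ, x = n ∧ h = rho e 0 n) then 1 else 0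

noncomputable def SS (e : ℕ → G) : Subgroup (Perm (Om G)) :=
  Subgroup.closure {tr (f0 e), mv G 2 0 two_ne_zero, mv G 1 1 one_ne_zero, sg G}

lemma m1 (e : ℕ → G) : tr (f0 e) ∈ SS e := Subgroup.subset_closure (by simp)
lemma m2 (e : ℕ → G) : mv G 2 0 two_ne_zero ∈ SS e := Subgroup.subset_closure (by simp)
lemma m3 (e : ℕ → G) : mv G 1 1 one_ne_zero ∈ SS e := Subgroup.subset_closure (by simp)
lemma m4 (e : ℕ → G) : sg G ∈ SS e := Subgroup.subset_closure (by simp)

omit [Group G] in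
lemma cl_mv (S : Subgroup (Perm (Om G))) (u v : ℚ) (hu : u ≠ 0) (hm : mv G u v hu ∈ S)
    (f : ℚ → G → ZMod 3) (hf : tr f ∈ S) : tr (fun x h => f (u * x + v) h) ∈ S := by
  have : tr (fun x h => f (u * x + v) h) = (mv G u v hu)⁻¹ * (tr f * mv G u v hu) := by
    rw [eq_inv_mul_iff_mul_eq]
    ext w <;> simp
  rw [this]
  exact S.mul_mem (S.inv_mem hm) (S.mul_mem hf hm)

omit [Group G] in
open Classical in
lemma cl_sg (S : Subgroup (Perm (Om G))) (hm : sg G ∈ S)
    (f : ℚ → G → ZMod 3) (hf : tr f ∈ S) :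
    tr (fun x h => if (∃ n : ℕ, x = n) then f x h else 0) ∈ S := by
  have : tr (fun x h => if (∃ n : ℕ, x = n) then f x h else 0) =
      sg G * tr f * sg G * (tr f)⁻¹ := by
    rw [eq_mul_inv_iff_mul_eq]
    refine Equiv.ext fun w => ?_
    by_cases h : ∃ n : ℕ, w.1 = n
    · simp only [Perm.mul_apply, tr_apply, sg_apply, if_pos h]
      refine Prod.ext rfl (Prod.ext rfl ?_)
      have : ∀ a b : ZMod 3, a + b + b = -(-a + b) := by decide
      exact this _ _
    · simp only [Perm.mul_apply, tr_apply, sg_apply, if_neg h, add_zero]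
  rw [this]
  exact S.mul_mem (S.mul_mem (S.mul_mem hm hf) hm) (S.inv_mem hf)

lemma shift_mem (e : ℕ → G) (k : ℕ) : tr (fun x h => f0 e x ((e k)⁻¹ * h)) ∈ SS e := by
  classical
  have a1 : ∀ j : ℕ, tr (fun x h => f0 e (2 ^ j * x) h) ∈ SS e := by
    intro j
    induction j with
    | zero => simpa using m1 e
    | succ j ih =>
      have := cl_mv _ _ _ _ (m2 e) _ ih
      convert this using 4
      ring
  have a2 := cl_sg _ (m4 e) _ (cl_mv _ _ _ _ (m2 e) _ (cl_mv _ _ _ _ (m3 e) _ (a1 k)))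
  convert a2 using 2
  funext x h
  by_cases hx : ∃ n : ℕ, x = n
  · rw [if_pos hx]
    obtain ⟨m, rfl⟩ := hx
    have e1 : (2:ℚ) ^ k * (1 * (2 * (m:ℚ) + 0) + 1) = ((2 ^ k * (2 * m + 1) : ℕ) : ℚ) := by
      push_cast; ring
    rw [e1]
    unfold f0
    simp only [Nat.cast_inj, exists_eq_left', rho_eq, zero_add, inv_mul_eq_iff_eq_mul]
  · rw [if_neg hx]
    unfold f0
    rw [if_neg]
    rintro ⟨n, h1, _⟩
    exact hx ⟨n, h1⟩

lemma conj_mem (e : ℕ → G) (he : Function.Surjective e) (g : G) (s : Perm (Om G)) (hs : s ∈ SS e) :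
    lam G g * s * (lam G g)⁻¹ ∈ SS e := by
  have : SS e ≤ (SS e).comap (MulAut.conj (lam G g)).toMonoidHom := by
    unfold SS
    rw [Subgroup.closure_le]
    intro s hs
    simp only [Set.mem_insert_iff, Set.mem_singleton_iff] at hs
    show lam G g * s * (lam G g)⁻¹ ∈ SS e
    rcases hs with rfl | rfl | rfl | rfl
    · obtain ⟨k, rfl⟩ := he g
      convert shift_mem e k using 1
      rw [mul_inv_eq_iff_eq_mul]
      ext w <;> simp
    · convert m2 e using 1
      rw [mul_inv_eq_iff_eq_mul]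
      ext w <;> simp
    · convert m3 e using 1
      rw [mul_inv_eq_iff_eq_mul]
      ext w <;> simp
    · convert m4 e using 1
      rw [mul_inv_eq_iff_eq_mul]
      refine Equiv.ext fun w => ?_
      simp
  exact this hs

lemma lam_mem (e : ℕ → G) (he : Function.Surjective e) (g : G) :
    lam G g ∈ Subgroup.normalizer (SS e : Set (Perm (Om G))) := by
  rw [Subgroup.mem_normalizer_iff]
  intro s
  refine ⟨conj_mem e he g s, fun h => ?_⟩
  have := conj_mem e he g⁻¹ _ h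
  rw [map_inv] at this
  simpa [mul_assoc] using this

theorem main (G : Type) [Group G] [Countable G] :
    ∃ (S : Type) (_ : Group S), Group.FG S ∧ derivedSeries S 4 = ⊥ ∧
      ∃ f : G →* MulAut S, Function.Injective f := by
  obtain ⟨e, he⟩ := exists_surjective_nat G
  refine ⟨SS e, inferInstance, ?_, ?_,
    (SS e).normalizerMonoidHom.comp ((lam G).codRestrict _ (lam_mem e he)), ?_⟩
  · rw [Group.fg_iff_subgroup_fg]
    exact (Subgroup.fg_iff _).mpr ⟨_, rfl, Set.toFinite _⟩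
  · apply der4
    unfold SS
    rw [Subgroup.closure_le]
    intro s hs
    simp only [Set.mem_insert_iff, Set.mem_singleton_iff] at hs
    rcases hs with rfl | rfl | rfl | rfl
    · exact ⟨1, 0, one_ne_zero, fun w => by simp⟩
    · exact ⟨2, 0, two_ne_zero, fun w => by simp⟩
    · exact ⟨1, 1, one_ne_zero, fun w => by simp⟩
    · exact ⟨1, 0, one_ne_zero, fun w => by simp⟩
  · rw [injective_iff_map_eq_one]
    intro g hg
    have h1 : ((lam G).codRestrict _ (lam_mem e he)) g ∈ (SS e).normalizerMonoidHom.ker := hg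
    rw [Subgroup.normalizerMonoidHom_ker, Subgroup.mem_subgroupOf, Subgroup.mem_centralizer_iff] at h1
    have h2 : tr (f0 e) * lam G g = lam G g * tr (f0 e) := h1 _ (m1 e)
    have h3 := congrArg (fun s : Perm (Om G) => (s (0, 1, 0)).2.2) h2
    simp only [Perm.mul_apply, tr_apply, lam_apply, mul_one, zero_add] at h3
    have r0 : rho e 0 0 = 1 := by rw [rho]; simp
    have h4 : f0 e 0 1 = 1 := by
      unfold f0
      rw [if_pos ⟨0, by simp, r0.symm⟩]
    rw [h4] at h3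
    unfold f0 at h3
    split_ifs at h3 with h
    · obtain ⟨n, h5, h6⟩ := h
      have : n = 0 := by exact_mod_cast h5.symm
      rw [h6, this, r0]
    · exact absurd h3 (by decide)

end Pool.Agent.H.MP_7909d8_al
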